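import Pool.Agent.W184.NV.Base

set_option autoImplicit false

/-!
# Project EM: the embedding problem for the Hardy spaces of Dirichlet series, `p > 2`

Definitions and the statements of the tasks.
-/

namespace Pool.Agent.W184.EM

open MeasureTheory Filter Topology ProbabilityTheory
open Pool.Agent.W184.NV (Ci mu ze mup)

/-! ### Number theory -/

/-- the numbers `p` with `log p ≤ 2^m` (empty for `m = 0`) -/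
def low (m : ℕ) : Set ℕ := {p | 1 ≤ m ∧ Real.log p ≤ 2 ^ m}

open Classical in
/-- the primes `p` with `log p ≤ 2^M` -/
noncomputable def PP (M : ℕ) : Finset ℕ := (Finset.Icc 1 ⌊Real.exp (2 ^ M)⌋₊).filter Nat.Prime

open Classical in
/-- the primes of the block `m`: `p ∈ low (m+1)`, `p ∉ low m` -/
noncomputable def BP (m : ℕ) : Finset ℕ := (PP (m + 1)).filter fun p => p ∉ low m

/-- T-NT -/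
def S_NT : Prop := ∃ C : ℝ, 1 ≤ C ∧
  (∀ m : ℕ, ∏ p ∈ PP m, (1 - 1 / (p : ℝ))⁻¹ ≤ C * 2 ^ m) ∧
  (∀ m : ℕ, 2 ^ m ≤ C * ∏ p ∈ PP m, (1 - 1 / (p : ℝ))⁻¹) ∧
  (∀ m : ℕ, ∑ p ∈ PP m, Real.log p / (p : ℝ) ≤ C * 2 ^ m) ∧
  (∀ m : ℕ, ∑ p ∈ PP m, Real.log p ^ 2 / (p : ℝ) ≤ C * 4 ^ m) ∧
  (∀ (S : Finset ℕ) (v : ℝ), 0 ≤ v → (∀ p ∈ S, p.Prime ∧ v ≤ Real.log p ∧ Real.log p ≤ v + 1) →
    ∑ p ∈ S, 1 / (p : ℝ) ≤ C / (1 + v)) ∧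
  (∀ m : ℕ, 1 / C ≤ ∑ p ∈ BP m, 1 / (p : ℝ)) ∧
  (∀ m : ℕ, ∑ p ∈ BP m, 1 / (p : ℝ) ≤ C) ∧
  (∀ (m : ℕ) (σ : ℝ), 0 ≤ σ → σ ≤ 1 →
    ∑ p ∈ PP m, min 1 (σ * Real.log p) / (p : ℝ) ≤ C + C * Real.log (1 + σ * 2 ^ m))

/-! ### The random functions -/

/-- `p^(-(1/2+|σ|))` -/
noncomputable def rr (σ : ℝ) (p : ℕ) : ℝ := (p : ℝ) ^ (-(1 / 2 + |σ|))

/-- the rotated variable -/
noncomputable def zz (P : Finset ℕ) (ω : P → Ci) (t : ℝ) (p : P) : ℂ :=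
  ze (ω p) * ((p : ℕ) : ℂ) ^ ((t : ℂ) * Complex.I)

/-- one factor -/
noncomputable def ph (θ r : ℝ) (z : ℂ) : ℂ :=
  (1 - r * z⁻¹)⁻¹ * (1 - r * z) ^ (-(θ : ℂ)) * (((1 - r ^ 2) ^ θ : ℝ) : ℂ)

/-- logarithmic derivative `z ∂_z log ph` -/
noncomputable def gp (θ r : ℝ) (z : ℂ) : ℂ :=
  θ * (r * z) / (1 - r * z) - (r * z⁻¹) / (1 - r * z⁻¹)

open Classical in
/-- the representing function (product over the elements of `P` in `S`) -/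
noncomputable def hh (θ : ℝ) (P : Finset ℕ) (S : Set ℕ) (σ t : ℝ) (ω : P → Ci) : ℂ :=
  ∏ p : P, if (p : ℕ) ∈ S then ph θ (rr σ p) (zz P ω t p) else 1

open Classical in
/-- its derivative in `t` -/
noncomputable def dh (θ : ℝ) (P : Finset ℕ) (S : Set ℕ) (σ t : ℝ) (ω : P → Ci) : ℂ :=
  hh θ P S σ t ω * (Complex.I * ∑ p : P,
    if (p : ℕ) ∈ S then (Real.log (p : ℕ) : ℂ) * gp θ (rr σ p) (zz P ω t p) else 0)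

/-- Poisson kernel -/
noncomputable def Pk (r : ℝ) (z : ℂ) : ℝ := (1 - r ^ 2) / ‖1 - r * z‖ ^ 2

open Classical in
/-- the product of the Poisson kernels -/
noncomputable def ro (P : Finset ℕ) (S : Set ℕ) (t : ℝ) (ω : P → Ci) : ℝ :=
  ∏ p : P, if (p : ℕ) ∈ S then Pk (rr 0 p) (zz P ω t p) else 1

/-- the character `n` at `ω` -/
noncomputable def ch (P : Finset ℕ) (n : ℕ) (ω : P → Ci) : ℂ :=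
  ∏ p : P, ze (ω p) ^ n.factorization p

open Classical in
/-- integrating out the coordinates outside `S` -/
noncomputable def ES {E : Type} [NormedAddCommGroup E] [NormedSpace ℝ E] (P : Finset ℕ) (S : Set ℕ)
    (f : (P → Ci) → E) (ω : P → Ci) : E :=
  ∫ ω', f (fun p => if (p : ℕ) ∈ S then ω p else ω' p) ∂mup P

/-- the interval number `k` of level `m` -/
noncomputable def lo (m k : ℕ) : ℝ := (k : ℝ) / 2 ^ m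

/-- the number of the interval of level `m` containing `t` -/
noncomputable def kk (m : ℕ) (t : ℝ) : ℕ := ⌊2 ^ m * t⌋₊

/-- the mass of the interval `k` of level `m` -/
noncomputable def am (P : Finset ℕ) (m k : ℕ) (ω : P → Ci) : ℝ :=
  ∫ s in (lo m k)..(lo m (k + 1)), ro P (low m) s ω

/-! ### Martingale part -/

/-- T-GP: conditional square functions (Garsia) and duality -/
def S_GP : Prop := ∀ (P : Finset ℕ) (M : ℕ) (S : ℕ → Set ℕ), S 0 = ∅ → Monotone S →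
  (∀ p ∈ P, p ∈ S M) → ∀ p q : ℝ, 2 ≤ p → 1 / p + 1 / q = 1 → ∀ F H : (P → Ci) → ℂ,
  Continuous F → Continuous H → ∫ ω, H ω ∂mup P = 0 →
  ‖∫ ω, F ω * H ω ∂mup P‖ ≤ √(p / 2) * (∫ ω, ‖F ω‖ ^ p ∂mup P) ^ (1 / p) *
    (∫ ω, (∑ m ∈ Finset.range M, ES P (S m) (fun ω' => ‖ES P (S (m + 1)) H ω' - ES P (S m) H ω'‖ ^ 2) ω)
      ^ (q / 2) ∂mup P) ^ (1 / q)

/-- T-ALG -/
def S_Alg : Prop := ∀ (θ : ℝ), 0 < θ → θ < 1 / 2 → ∀ (P : Finset ℕ), (∀ p ∈ P, p.Prime) →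
  (∀ S : Set ℕ, Continuous fun x : ℝ × ℝ × (P → Ci) => hh θ P S x.1 x.2.1 x.2.2) ∧
  (∀ S : Set ℕ, Continuous fun x : ℝ × ℝ × (P → Ci) => dh θ P S x.1 x.2.1 x.2.2) ∧
  (∀ S : Set ℕ, Continuous fun x : ℝ × (P → Ci) => ro P S x.1 x.2) ∧
  (∀ (S : Set ℕ) (σ t : ℝ) (ω : P → Ci), hh θ P S σ t ω ≠ 0) ∧
  (∀ (S : Set ℕ) (t : ℝ) (ω : P → Ci), 0 < ro P S t ω) ∧
  (∀ (S : Set ℕ) (σ t : ℝ) (ω : P → Ci),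
    HasDerivAt (fun x : ℝ => hh θ P S σ x ω) (dh θ P S σ t ω) t) ∧
  (∀ (S S' : Set ℕ) (σ t : ℝ) (ω : P → Ci), ES P S (hh θ P S' σ t) ω = hh θ P (S' ∩ S) σ t ω) ∧
  (∀ (S S' : Set ℕ) (σ t : ℝ) (ω : P → Ci), ES P S (dh θ P S' σ t) ω = dh θ P (S' ∩ S) σ t ω) ∧
  (∀ (S S' : Set ℕ) (t : ℝ) (ω : P → Ci), ES P S (ro P S' t) ω = ro P (S' ∩ S) t ω)

/-- T-REP -/
def S_Rep : Prop := ∀ (θ : ℝ), 0 < θ → θ < 1 / 2 → ∀ (P : Finset ℕ), (∀ p ∈ P, p.Prime) →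
  ∀ n : ℕ, n ≠ 0 → n.primeFactors ⊆ P → ∀ σ t : ℝ, 0 ≤ σ →
  (∫ ω, ch P n ω * hh θ P Set.univ σ t ω ∂mup P = (n : ℂ) ^ (-((1 / 2 + σ : ℝ) + t * Complex.I))) ∧
  (∫ ω, ch P n ω * dh θ P Set.univ σ t ω ∂mup P =
    -Complex.I * Real.log n * (n : ℂ) ^ (-((1 / 2 + σ : ℝ) + t * Complex.I)))

/-- T-GAL -/
def S_Gal : Prop := ∃ C : ℝ, 0 < C ∧ ∀ (m : ℕ) (g : ℝ → ℂ), Continuous g → ∀ ε : ℝ, |ε| = 1 →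
  ∑ p ∈ BP m, 1 / (p : ℝ) * ‖∫ t in (0 : ℝ)..1, g t * Complex.exp (Complex.I * (ε * t * Real.log p : ℝ))‖ ^ 2 ≤
    C * ∑ k ∈ Finset.range (2 ^ m), (∫ t in (lo m k)..(lo m (k + 1)), ‖g t‖) ^ 2

/-- T-BLC -/
def S_BlkC : Prop := ∀ θ : ℝ, 0 < θ → θ < 1 / 2 → ∃ C c : ℝ, 0 < C ∧ 0 < c ∧ ∀ m M : ℕ, m < M →
  ∀ σ : ℝ, 0 ≤ σ → σ ≤ 1 → ∀ g : ℝ → ℂ, Continuous g →
  (∫ ω, ‖∫ t in (0 : ℝ)..1, g t * (hh θ (PP M) (low (m + 1) \ low m) σ t ω - 1)‖ ^ 2 ∂mup (PP M) ≤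
    C * Real.exp (-(c * σ * 2 ^ m)) *
      ∑ k ∈ Finset.range (2 ^ m), (∫ t in (lo m k)..(lo m (k + 1)), ‖g t‖) ^ 2) ∧
  (∫ ω, ‖∫ t in (0 : ℝ)..1, g t * dh θ (PP M) (low (m + 1) \ low m) σ t ω‖ ^ 2 ∂mup (PP M) ≤
    C * 4 ^ m * Real.exp (-(c * σ * 2 ^ m)) *
      ∑ k ∈ Finset.range (2 ^ m), (∫ t in (lo m k)..(lo m (k + 1)), ‖g t‖) ^ 2)

/-- T-BLK -/
def S_Blk : Prop := ∀ θ : ℝ, 0 < θ → θ < 1 / 2 → ∃ C c : ℝ, 0 < C ∧ 0 < c ∧ ∀ m M : ℕ, m < M →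
  ∀ σ : ℝ, 0 ≤ σ → σ ≤ 1 → ∀ g : ℝ → ℂ, Continuous g → ∀ ω : PP M → Ci,
  ES (PP M) (low m) (fun ω' => ‖∫ t in (0 : ℝ)..1,
      g t * (dh θ (PP M) (low (m + 1)) σ t ω' - dh θ (PP M) (low m) σ t ω')‖ ^ 2) ω ≤
    C * Real.exp (-(c * σ * 2 ^ m)) * ∑ k ∈ Finset.range (2 ^ m),
      (∫ t in (lo m k)..(lo m (k + 1)),
        ‖g t‖ * (‖dh θ (PP M) (low m) σ t ω‖ + 2 ^ m * ‖hh θ (PP M) (low m) σ t ω‖)) ^ 2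

/-! ### Moments -/

/-- the ratio of the representing functions -/
noncomputable def ka (θ : ℝ) (P : Finset ℕ) (m : ℕ) (σ t : ℝ) (ω : P → Ci) : ℝ :=
  (‖dh θ P (low m) σ t ω‖ + 2 ^ m * ‖hh θ P (low m) σ t ω‖) / ‖hh θ P (low m) 0 t ω‖

/-- T-KAP -/
def S_Kap : Prop := ∀ θ : ℝ, 0 < θ → θ < 1 / 2 → ∃ (C : ℝ) (K : ℕ), 0 < C ∧ ∀ m M : ℕ, m ≤ M →
  ∀ σ t : ℝ, 0 ≤ σ → σ ≤ 1 →
  ∫ ω, ro (PP M) (low m) t ω * ka θ (PP M) m σ t ω ^ 10 ∂mup (PP M) ≤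
    C * (2 ^ m) ^ 10 * (1 + σ * 2 ^ m) ^ K

/-- T-MUL -/
def S_Mul : Prop := ∀ θ : ℝ, 0 < θ → θ < 1 / 2 → ∃ C : ℝ, 0 < C ∧ ∀ m M : ℕ, m ≤ M →
  ∀ g T : ℝ → ℝ, Continuous g → Continuous T → (∀ t, 0 ≤ g t) → (∀ t, 0 ≤ T t) →
  ∀ (ω : PP M → Ci) (k : ℕ),
  (∫ t in (lo m k)..(lo m (k + 1)), g t * T t) ^ 2 ≤ C * am (PP M) m k ω ^ θ *
    ∫ t in (lo m k)..(lo m (k + 1)),
      g t ^ 2 * (T t / ‖hh θ (PP M) (low m) 0 t ω‖) ^ 2 * ro (PP M) (low m) t ω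

/-! ### The walk -/

/-- T-PAB: persistence, abstract form -/
def S_PersAbs : Prop := ∀ C₀ C₁ c : ℝ, 0 < C₀ → 0 < C₁ → 0 < c → ∃ C : ℝ, 0 < C ∧
  ∀ (Ω : Type) (_ : MeasurableSpace Ω) (μ : Measure Ω), IsProbabilityMeasure μ →
  ∀ (n : ℕ) (X : ℕ → Ω → ℝ), iIndepFun X μ → (∀ i, Measurable (X i)) →
  (∀ i, ∃ B : ℝ, ∀ x, |X i x| ≤ B) →
  (∀ i < n, ∫ x, Real.exp |X i x| ∂μ ≤ C₁) →
  (∀ i < n, c ≤ ∫ x, (X i x - ∫ y, X i y ∂μ) ^ 2 ∂μ) →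
  (∀ k ≤ n, |∑ i ∈ Finset.range k, ∫ x, X i x ∂μ| ≤ C₀) →
  ∀ L : ℝ, 0 ≤ L → μ.real {x | ∀ k ≤ n, -L ≤ ∑ i ∈ Finset.range k, X i x} ≤
    C * (1 + L + Real.log (1 + n)) / √(1 + n)

open Classical in
/-- T-PS: persistence of the walk -/
def S_PersS : Prop := ∃ C : ℝ, 0 < C ∧ ∀ m₀ m M : ℕ, m₀ ≤ m → m ≤ M → ∀ t L : ℝ, 0 ≤ L →
  ∫ ω, (if ∀ j, m₀ ≤ j → j ≤ m → ro (PP M) (low j) t ω / 2 ^ j ≤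
        Real.exp L * (ro (PP M) (low m) t ω / 2 ^ m) then ro (PP M) (low m) t ω else 0) ∂mup (PP M) ≤
    C * (1 + L + Real.log (1 + (m - m₀ : ℕ))) / √(1 + (m - m₀ : ℕ))

/-- T-DJ -/
def S_Dj : Prop := ∃ C : ℝ, 0 < C ∧ ∀ m M : ℕ, m ≤ M → ∀ t : ℝ, 0 ≤ t → t < 1 →
  ∫ ω, ro (PP M) (low m) t ω * (ro (PP M) (low m) t ω / 2 ^ m / am (PP M) m (kk m t) ω) ∂mup (PP M) ≤ C

open Classical in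
/-- T-PERS -/
def S_Pers : Prop := ∃ C : ℝ, 0 < C ∧ ∀ m₀ m M : ℕ, m₀ ≤ m → m ≤ M → ∀ t L : ℝ, 0 ≤ t → t < 1 →
  0 ≤ L →
  ∫ ω, (if ∀ j, m₀ ≤ j → j ≤ m → am (PP M) j (kk j t) ω ≤
        Real.exp L * am (PP M) m (kk m t) ω then ro (PP M) (low m) t ω else 0) ∂mup (PP M) ≤
    C * (1 + L) * (1 + (m - m₀ : ℕ) : ℝ) ^ (-(2 / 5) : ℝ)

/-- T-Z -/
def S_Z : Prop := ∀ θ : ℝ, 0 < θ → θ < 1 / 2 → ∃ C : ℝ, 0 < C ∧ ∀ (M : ℕ) (n : ℕ → ℕ → ℝ),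
  (∀ m k, 0 < n m k) → (∀ m k, n m (k / 2) ≤ n (m + 1) k) →
  ∃ Z : (PP M → Ci) → ℝ, Measurable Z ∧ (∃ B : ℝ, 0 < B ∧ ∀ ω, B⁻¹ ≤ Z ω ∧ Z ω ≤ B) ∧
  ∫ ω, Z ω ∂mup (PP M) ≤ C * (1 / 2 ^ M * ∑ k ∈ Finset.range (2 ^ M), n M k) ∧
  ∀ m ≤ M, ∀ t : ℝ, 0 ≤ t → t < 1 →
    ∫ ω, ro (PP M) (low m) t ω * (n m (kk m t) * am (PP M) m (kk m t) ω / Z ω) ^ (5 / 4 * θ)
      ∂mup (PP M) ≤ C

/-! ### Real and complex analysis -/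

/-- cutoff functions -/
noncomputable def ca (σ : ℝ) : ℝ := (1 - σ ^ 2) ^ 2
noncomputable def cb (t : ℝ) : ℝ := 256 / 9 * (t ^ 2 * (1 - t) ^ 2)

/-- T-GREEN -/
def S_Green : Prop := ∀ p : ℝ, 2 < p → ∀ f : ℂ → ℂ, Differentiable ℂ f →
  ∫ t in (1 / 4 : ℝ)..(3 / 4), ‖f (t * Complex.I)‖ ^ p ≤
    p ^ 2 * (∫ σ in (0 : ℝ)..1, ∫ t in (0 : ℝ)..1, σ * (ca σ * cb t) *
      (‖f (σ + t * Complex.I)‖ ^ (p - 2) * ‖deriv f (σ + t * Complex.I)‖ ^ 2)) +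
    80 * ∫ σ in (0 : ℝ)..1, ∫ t in (0 : ℝ)..1, σ * ‖f (σ + t * Complex.I)‖ ^ p

/-- Poisson kernel of the half-plane -/
noncomputable def PK (σ x : ℝ) : ℝ := σ / (Real.pi * (σ ^ 2 + x ^ 2))

/-- T-POIS -/
def S_Pois : Prop := ∀ (N : ℕ) (a : ℕ → ℂ) (s σ t : ℝ), 1 ≤ s → 0 < σ →
  ‖∑ n ∈ Finset.Icc 1 N, a n * (n : ℂ) ^ (-(σ + t * Complex.I))‖ ^ s ≤
    ∫ y : ℝ, PK σ (t - y) * ‖∑ n ∈ Finset.Icc 1 N, a n * (n : ℂ) ^ (-(y * Complex.I))‖ ^ s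

/-- T-WT: the weights -/
def S_Wt : Prop := ∃ C : ℝ, 0 < C ∧ ∀ (u : ℝ → ℝ) (J : ℝ), Continuous u → (∀ y, 0 ≤ u y) →
  (∃ B : ℝ, ∀ y, u y ≤ B) → 0 < J → (∀ τ : ℝ, ∫ y in τ..(τ + 1), u y ^ 2 ≤ J) → ∀ M : ℕ,
  ∃ n : ℕ → ℕ → ℝ, (∀ m k, 0 < n m k) ∧ (∀ m k, n m (k / 2) ≤ n (m + 1) k) ∧
  1 / 2 ^ M * ∑ k ∈ Finset.range (2 ^ M), n M k ≤ C * J ∧
  ∀ m ≤ M, ∀ σ t : ℝ, 0 < σ → σ ≤ 1 → 0 ≤ t → t < 1 →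
    (∫ y : ℝ, PK σ (t - y) * u y) ^ 2 ≤ C * max 1 (1 / (σ * 2 ^ m)) ^ 2 * n m (kk m t)

/-- T-BOHR -/
def S_BohrP : Prop := ∀ (P : Finset ℕ) (N : ℕ) (a : ℕ → ℂ) (p : ℝ), 0 < p →
  (∀ n ∈ Finset.Icc 1 N, n.primeFactors ⊆ P) →
  Tendsto (fun T : ℝ => 1 / (2 * T) * ∫ t in (-T)..T,
    ‖∑ n ∈ Finset.Icc 1 N, a n * (n : ℂ) ^ (-(t * Complex.I))‖ ^ p) atTop
    (𝓝 (∫ ω, ‖∑ n ∈ Finset.Icc 1 N, a n * ch P n ω‖ ^ p ∂mup P))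

/-! ### Assembly -/

/-- the Dirichlet polynomial, at `1/2 + z` -/
noncomputable def fD (N : ℕ) (a : ℕ → ℂ) (z : ℂ) : ℂ :=
  ∑ n ∈ Finset.Icc 1 N, a n * (n : ℂ) ^ (-(1 / 2 + z))

/-- the Dirichlet polynomial on the torus -/
noncomputable def FD (P : Finset ℕ) (N : ℕ) (a : ℕ → ℂ) (ω : P → Ci) : ℂ :=
  ∑ n ∈ Finset.Icc 1 N, a n * ch P n ω

/-- T-MAIN -/
def S_Main : Prop := ∀ p : ℝ, 2 < p → p < 4 → ∃ C : ℝ, 0 < C ∧ ∀ (N M : ℕ) (a : ℕ → ℂ) (J : ℝ),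
  1 ≤ M → (N : ℝ) ≤ Real.exp (2 ^ M) → 0 < J → (∀ τ : ℝ, ∫ y in τ..(τ + 1), ‖fD N a (y * Complex.I)‖ ^ p ≤ J) →
  ∫ σ in (0 : ℝ)..1, ∫ t in (0 : ℝ)..1, σ * (ca σ * cb t) *
      (‖fD N a (σ + t * Complex.I)‖ ^ (p - 2) * ‖deriv (fD N a) (σ + t * Complex.I)‖ ^ 2) ≤
    C * (∫ ω, ‖FD (PP M) N a ω‖ ^ p ∂mup (PP M)) ^ (2 / p) * J ^ (1 - 2 / p)

/-- T-CLOSE -/
def S_Close : Prop := ∀ p : ℝ, 2 < p → p < 4 → ∃ C : ℝ, 0 < C ∧ ∀ (N : ℕ) (P : Finset ℕ) (a : ℕ → ℂ),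
  (∀ n ∈ Finset.Icc 1 N, n.primeFactors ⊆ P) → ∀ τ : ℝ,
  ∫ y in τ..(τ + 1), ‖fD N a (y * Complex.I)‖ ^ p ≤ C * ∫ ω, ‖FD P N a ω‖ ^ p ∂mup P

/-- T-TWO -/
def S_Two : Prop := ∃ C : ℝ, 0 < C ∧ ∀ (N : ℕ) (a : ℕ → ℂ) (τ : ℝ),
  ∫ y in τ..(τ + 1), ‖fD N a (y * Complex.I)‖ ^ (2 : ℝ) ≤ C * ∑ n ∈ Finset.Icc 1 N, ‖a n‖ ^ 2

end Pool.Agent.W184.EM
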